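import Pool.Agent.H12.UT.Targets2

/-!
# Row PT of the board utn_modules: the points near a residue point
-/

set_option autoImplicit false

namespace Pool.Agent.H74.UT

open Polynomial HahnSeries

open Pool.Agent.H12.UT

section

variable {κ : Type} [Field κ]

/-- the series `f` has the value `r` at `T = 0` -/
def Gd (f : HS κ) (r : κ) : Prop := 0 < (f - HahnSeries.C r).orderTop

theorem gd_C (r : κ) : Gd (HahnSeries.C r : HS κ) r := by
  unfold Gd
  rw [sub_self, orderTop_zero]
  exact WithTop.coe_lt_top _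

theorem gd_zero : Gd (0 : HS κ) 0 := by
  have h := gd_C (0 : κ)
  rwa [map_zero] at h

theorem gd_one : Gd (1 : HS κ) 1 := by
  have h := gd_C (1 : κ)
  rwa [map_one] at h

theorem gd_zero_iff (f : HS κ) : Gd f 0 ↔ 0 < f.orderTop := by
  unfold Gd
  rw [map_zero, sub_zero]

theorem gd_add {f g : HS κ} {r s : κ} (hf : Gd f r) (hg : Gd g s) : Gd (f + g) (r + s) := by
  unfold Gd at *
  have h : f + g - HahnSeries.C (r + s) = (f - HahnSeries.C r) + (g - HahnSeries.C s) := by
    rw [map_add]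
    ring
  rw [h]
  exact lt_of_lt_of_le (lt_min hf hg) min_orderTop_le_orderTop_add

theorem gd_neg {f : HS κ} {r : κ} (hf : Gd f r) : Gd (-f) (-r) := by
  unfold Gd at *
  have h : -f - HahnSeries.C (-r) = -(f - HahnSeries.C r) := by
    rw [map_neg]
    ring
  rw [h, orderTop_neg]
  exact hf

theorem gd_sub {f g : HS κ} {r s : κ} (hf : Gd f r) (hg : Gd g s) : Gd (f - g) (r - s) := by
  rw [sub_eq_add_neg, sub_eq_add_neg]
  exact gd_add hf (gd_neg hg)

theorem orderTop_C_nonneg (r : κ) : 0 ≤ (HahnSeries.C r : HS κ).orderTop := orderTop_single_le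

theorem gd_nonneg {f : HS κ} {r : κ} (hf : Gd f r) : 0 ≤ f.orderTop := by
  have h : f = (f - HahnSeries.C r) + HahnSeries.C r := by ring
  rw [h]
  exact (le_min (le_of_lt hf) (orderTop_C_nonneg r)).trans min_orderTop_le_orderTop_add

theorem gd_mul {f g : HS κ} {r s : κ} (hf : Gd f r) (hg : Gd g s) : Gd (f * g) (r * s) := by
  have hg' := gd_nonneg hg
  unfold Gd at *
  have h : f * g - HahnSeries.C (r * s) =
      (f - HahnSeries.C r) * g + HahnSeries.C r * (g - HahnSeries.C s) := by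
    rw [map_mul]
    ring
  rw [h]
  refine lt_of_lt_of_le (lt_min ?_ ?_) min_orderTop_le_orderTop_add
  · rw [orderTop_mul]
    exact add_pos_of_pos_of_nonneg hf hg'
  · rw [orderTop_mul]
    rw [add_comm]
    exact add_pos_of_pos_of_nonneg hg (orderTop_C_nonneg r)

theorem gd_lead {f : HS κ} {r : κ} (hf : Gd f r) (hr : r ≠ 0) :
    f ≠ 0 ∧ f.order = 0 ∧ f.leadingCoeff = r ∧ f.orderTop = 0 := by
  have h0 : (HahnSeries.C r : HS κ).orderTop = 0 := orderTop_single hr
  have h : f = HahnSeries.C r + (f - HahnSeries.C r) := by ring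
  have hlt : (HahnSeries.C r : HS κ).orderTop < (f - HahnSeries.C r).orderTop := by
    rw [h0]
    exact hf
  have h1 : f.orderTop = 0 := by
    rw [h, orderTop_add_eq_left hlt, h0]
  have h2 : f ≠ 0 := by
    rintro rfl
    rw [orderTop_zero] at h1
    exact WithTop.top_ne_zero h1
  refine ⟨h2, ?_, ?_, h1⟩
  · have h3 := order_eq_orderTop_of_ne_zero h2
    rw [h1] at h3
    exact_mod_cast h3
  · rw [h, leadingCoeff_add_eq_left hlt]
    exact leadingCoeff_of_single

theorem gd_inv {f : HS κ} {r : κ} (hf : Gd f r) (hr : r ≠ 0) : Gd f⁻¹ r⁻¹ := by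
  obtain ⟨h1, _, _, h4⟩ := gd_lead hf hr
  have h5 : (f⁻¹).orderTop = 0 := by
    have h6 : (f * f⁻¹).orderTop = 0 := by
      rw [mul_inv_cancel₀ h1, orderTop_one]
    rw [orderTop_mul, h4, zero_add] at h6
    exact h6
  unfold Gd at *
  have hC : (HahnSeries.C r : HS κ) * HahnSeries.C r⁻¹ = 1 := by
    rw [← map_mul, mul_inv_cancel₀ hr, map_one]
  have h : f⁻¹ - HahnSeries.C r⁻¹ = -((f - HahnSeries.C r) * (f⁻¹ * HahnSeries.C r⁻¹)) := by
    have h7 : f * f⁻¹ = 1 := mul_inv_cancel₀ h1
    linear_combination (HahnSeries.C r⁻¹ : HS κ) * h7 - f⁻¹ * hC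
  rw [h, orderTop_neg, orderTop_mul, orderTop_mul, h5, zero_add]
  exact add_pos_of_pos_of_nonneg hf (orderTop_C_nonneg _)

theorem gd_of_order {f : HS κ} (h : f.order = 0) : Gd f f.leadingCoeff := by
  unfold Gd
  by_cases h0 : f - HahnSeries.C f.leadingCoeff = 0
  · rw [h0, orderTop_zero]
    exact WithTop.coe_lt_top _
  · rw [← order_eq_orderTop_of_ne_zero h0]
    rw [← WithTop.coe_zero, WithTop.coe_lt_coe]
    by_contra hcon
    push Not at hcon
    have h1 := (HahnSeries.leadingCoeff_ne_zero).2 h0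
    rw [HahnSeries.leadingCoeff_eq] at h1
    apply h1
    rw [HahnSeries.coeff_sub]
    rcases hcon.lt_or_eq with h2 | h2
    · rw [coeff_eq_zero_of_lt_order (by rw [h]; exact h2)]
      have h3 : (HahnSeries.C f.leadingCoeff : HS κ).coeff
          (f - HahnSeries.C f.leadingCoeff).order = 0 :=
        coeff_single_of_ne (ne_of_lt h2)
      rw [h3, sub_zero]
    · rw [h2]
      have h3 : (HahnSeries.C f.leadingCoeff : HS κ).coeff 0 = f.leadingCoeff :=
        coeff_single_same _ _
      rw [h3, HahnSeries.leadingCoeff_eq, h, sub_self]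

theorem gd_single {γ : ℝ} (h : 0 < γ) : Gd (single γ (1 : κ)) 0 := by
  rw [gd_zero_iff]
  exact lt_orderTop_single h

end

theorem pf_PT (hSQ : T_SQ) (hAFF : T_AFF) : T_PT := by
  intro κ K _ _ _ _ A e c c' P Q U V x y x' y' m ι hι hGD hRD hγ
  obtain ⟨γ, hγ0, hγi⟩ := hγ
  obtain ⟨e0, e4, cq, q', hq'0, hq'o, hq'l⟩ := hGD
  obtain ⟨U0, V0, x0, x0', eqs, eq4, inf, con⟩ := hRD
  choose q hq0 hqo hql using cq
  set j : K →+* HS κ := algebraMap K (HS κ) with hj
  let T : Fin 9 → HS κ := fun i => single (γ (Fin.castAdd m i)) 1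
  have hT : ∀ i, Gd (T i) 0 := fun i => gd_single (hγ0 _)
  let τ : Fin 5 → Fin 9 := ![2, 3, 4, 5, 6]
  let u : HS κ := HahnSeries.C U + T 0
  let v : HS κ := HahnSeries.C V + T 1
  let Y : Fin 5 → HS κ := fun i => j (q i) * (HahnSeries.C (y i) + T (τ i))
  let Y' : HS κ := j q' * (HahnSeries.C y' + T 7)
  let z : HS κ := T 8
  let w : Fin m → HS κ := fun k => single (γ (Fin.natAdd 9 k)) 1
  have gu : Gd u U := by
    have h := gd_add (gd_C U) (hT 0)
    rwa [add_zero] at h
  have gv : Gd v V := by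
    have h := gd_add (gd_C V) (hT 1)
    rwa [add_zero] at h
  -- the values of the `e i`
  have hε : ∀ i, ∃ ε : κ, Gd (j (e i)) ε ∧ 1 - ε ≠ 0 ∧
      (U - ε * V) * (1 - ε)⁻¹ + A i * y i ^ 2 = x i ^ 2 := by
    intro i
    by_cases hi : i = 4
    · subst hi
      refine ⟨-1, ?_, ?_, ?_⟩
      · rw [e4, map_neg, map_one]
        exact gd_neg gd_one
      · norm_num
      · rw [← eq4]
        ring
    · refine ⟨0, ?_, ?_, ?_⟩
      · rw [gd_zero_iff]
        rcases e0 i hi with h | h
        · rw [h, orderTop_zero]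
          exact WithTop.coe_lt_top _
        · exact zero_lt_orderTop_of_order h
      · norm_num
      · rw [← eqs i hi]
        ring
  choose ε hε1 hε2 hε3 using hε
  have h1e : ∀ i, (1 - j (e i)) ≠ 0 := fun i => (gd_lead (gd_sub gd_one (hε1 i)) (hε2 i)).1
  have hX : ∀ i, ∃ X : HS κ, X ^ 2 = (u - j (e i) * v) * (1 - j (e i))⁻¹ + j (c i) * Y i ^ 2 := by
    intro i
    have h1 : Gd ((u - j (e i) * v) * (1 - j (e i))⁻¹ +
        j (c i * q i ^ 2) * (HahnSeries.C (y i) + T (τ i)) ^ 2) (x i ^ 2) := by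
      have h2 : Gd ((HahnSeries.C (y i) + T (τ i)) ^ 2) (y i ^ 2) := by
        have h3 := gd_add (gd_C (y i)) (hT (τ i))
        rw [add_zero] at h3
        rw [sq, sq]
        exact gd_mul h3 h3
      have h4 : Gd (j (c i * q i ^ 2)) (A i) := by
        have h5 := gd_of_order (hqo i)
        rwa [hql i] at h5
      rw [← hε3 i]
      exact gd_add (gd_mul (gd_sub gu (gd_mul (hε1 i) gv))
        (gd_inv (gd_sub gd_one (hε1 i)) (hε2 i))) (gd_mul h4 h2)
    have h2 : j (c i * q i ^ 2) * (HahnSeries.C (y i) + T (τ i)) ^ 2 = j (c i) * Y i ^ 2 := by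
      change _ = j (c i) * (j (q i) * (HahnSeries.C (y i) + T (τ i))) ^ 2
      rw [map_mul, map_pow]
      ring
    rw [h2] at h1
    obtain ⟨h3, _, h4, _⟩ := gd_lead h1 (pow_ne_zero 2 (x0 i))
    obtain ⟨X, hX⟩ := hSQ κ _ (x i) h3 h4
    exact ⟨X, by rw [hX, sq]⟩
  choose X hX using hX
  obtain ⟨X', hX'⟩ : ∃ X' : HS κ, X' ^ 2 = v + j c' * Y' ^ 2 := by
    have h1 : Gd (v + j (c' * q' ^ 2) * (HahnSeries.C y' + T 7) ^ 2) (x' ^ 2) := by
      have h2 : Gd ((HahnSeries.C y' + T 7) ^ 2) (y' ^ 2) := by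
        have h3 := gd_add (gd_C y') (hT 7)
        rw [add_zero] at h3
        rw [sq, sq]
        exact gd_mul h3 h3
      have h4 : Gd (j (c' * q' ^ 2)) (A 4) := by
        have h5 := gd_of_order hq'o
        rwa [hq'l] at h5
      rw [← inf]
      exact gd_add gv (gd_mul h4 h2)
    have h2 : j (c' * q' ^ 2) * (HahnSeries.C y' + T 7) ^ 2 = j c' * Y' ^ 2 := by
      change _ = j c' * (j q' * (HahnSeries.C y' + T 7)) ^ 2
      rw [map_mul, map_pow]
      ring
    rw [h2] at h1
    obtain ⟨h3, _, h4, _⟩ := gd_lead h1 (pow_ne_zero 2 x0')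
    obtain ⟨X, hX⟩ := hSQ κ _ x' h3 h4
    exact ⟨X, by rw [hX, sq]⟩
  obtain ⟨y1, hy1⟩ : ∃ y1 : HS κ, y1 ^ 2 = aeval (u / v) P + aeval (u / v) Q * z ^ 2 := by
    have h1 : Gd (u / v) (U / V) := by
      rw [div_eq_mul_inv, div_eq_mul_inv]
      exact gd_mul gu (gd_inv gv V0)
    obtain ⟨_, h2, h3, _⟩ := gd_lead h1 (div_ne_zero U0 V0)
    obtain ⟨h4, ⟨r, hr, h5⟩, h6⟩ := con (u / v) h2 h3
    have h7 : Gd (aeval (u / v) P) (r ^ 2) := by
      have h8 := gd_of_order h4
      rwa [h5] at h8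
    have h8 : Gd (aeval (u / v) Q * z ^ 2) 0 := by
      rw [gd_zero_iff, sq, orderTop_mul, orderTop_mul]
      have h9 := (gd_zero_iff _).1 (hT 8)
      rw [add_comm]
      exact add_pos_of_pos_of_nonneg (add_pos_of_pos_of_nonneg h9 h9.le)
        (zero_le_orderTop_iff.2 h6)
    have h9 := gd_add h7 h8
    rw [add_zero] at h9
    obtain ⟨h10, _, h11, _⟩ := gd_lead h9 (pow_ne_zero 2 hr)
    obtain ⟨X, hX⟩ := hSQ κ _ r h10 h11
    exact ⟨X, by rw [hX, sq]⟩
  refine ⟨u, v, X, Y, X', Y', y1, z, w, ⟨?_, ?_, hy1⟩, (gd_lead gu U0).2.2.1,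
    (gd_lead gv V0).1, ?_⟩
  · intro i
    rw [hX i]
    change u - j (e i) * v = j (1 - e i) * _
    rw [map_sub, map_one]
    have h1 := h1e i
    field_simp
    ring
  · rw [hX']
    ring
  · -- independence
    let pp : Fin (9 + m) → K := Fin.addCases
      ![ι U, ι V, ι (y 0) * q 0, ι (y 1) * q 1, ι (y 2) * q 2, ι (y 3) * q 3, ι (y 4) * q 4,
        ι y' * q', 0] (fun _ => 0)
    let qq : Fin (9 + m) → K := Fin.addCases
      ![1, 1, q 0, q 1, q 2, q 3, q 4, q', 1] (fun _ => 1)
    have hqq : ∀ i, qq i ≠ 0 := by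
      intro i
      refine Fin.addCases (fun i => ?_) (fun i => ?_) i
      · simp only [qq, Fin.addCases_left]
        fin_cases i
        · exact one_ne_zero
        · exact one_ne_zero
        · exact hq0 0
        · exact hq0 1
        · exact hq0 2
        · exact hq0 3
        · exact hq0 4
        · exact hq'0
        · exact one_ne_zero
      · simp only [qq, Fin.addCases_right]
        exact one_ne_zero
    have h1 := hAFF K (HS κ) (9 + m) _ pp qq hqq hγi
    have h2 := h1.comp finSumFinEquiv finSumFinEquiv.injective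
    have h3 : (Sum.elim ![u, v, Y 0, Y 1, Y 2, Y 3, Y 4, Y', z] w) =
        (fun i => algebraMap K (HS κ) (pp i) + algebraMap K (HS κ) (qq i) *
          single (γ i) 1) ∘ finSumFinEquiv := by
      funext i
      rcases i with i | i
      · simp only [Sum.elim_inl, Function.comp_apply, finSumFinEquiv_apply_left, pp, qq,
          Fin.addCases_left]
        fin_cases i
        · change HahnSeries.C U + T 0 = j (ι U) + j 1 * T 0
          rw [hι, map_one, one_mul]
        · change HahnSeries.C V + T 1 = j (ι V) + j 1 * T 1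
          rw [hι, map_one, one_mul]
        · change j (q 0) * (HahnSeries.C (y 0) + T 2) = j (ι (y 0) * q 0) + j (q 0) * T 2
          rw [map_mul, hι]
          ring
        · change j (q 1) * (HahnSeries.C (y 1) + T 3) = j (ι (y 1) * q 1) + j (q 1) * T 3
          rw [map_mul, hι]
          ring
        · change j (q 2) * (HahnSeries.C (y 2) + T 4) = j (ι (y 2) * q 2) + j (q 2) * T 4
          rw [map_mul, hι]
          ring
        · change j (q 3) * (HahnSeries.C (y 3) + T 5) = j (ι (y 3) * q 3) + j (q 3) * T 5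
          rw [map_mul, hι]
          ring
        · change j (q 4) * (HahnSeries.C (y 4) + T 6) = j (ι (y 4) * q 4) + j (q 4) * T 6
          rw [map_mul, hι]
          ring
        · change j q' * (HahnSeries.C y' + T 7) = j (ι y' * q') + j q' * T 7
          rw [map_mul, hι]
          ring
        · change T 8 = j 0 + j 1 * T 8
          rw [map_zero, map_one]
          ring
      · simp only [Sum.elim_inr, Function.comp_apply, finSumFinEquiv_apply_right, pp, qq,
          Fin.addCases_right, map_zero, map_one]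
        change w i = 0 + 1 * w i
        ring
    rw [h3]
    exact h2

end Pool.Agent.H74.UT
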